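import Pool.Agent.Helper40.ZU.Stmts2
import Pool.Agent.Helper62.IZ.FDE

/-!
Sheet ZU, row XPW (MP_7a8f48_an): finite dimensional invariant spaces of continuous functions
separate the points of a compact metric space (Peter and Weyl).
-/

open Finset Filter MeasureTheory Topology
open scoped ComplexConjugate InnerProductSpace

namespace Pool.Agent.Helper96.ZU

open Pool.Agent.Helper40.IZ (Fr cf fdeL fdeL_ae fdeP fdeP_apply fdeK fdeK_apply fdeK_int fdeU
  fdeU_L fdeU_adj fdeU_symm fdeU_symm' fdeK_U fdeK_sum fdeC fdeC_apply fde_basis fde_unitary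
  fdeL_inner ST_KOP ST_SPC)
open Pool.Agent.Helper16.AZ (E Op)

theorem xpw_one (hKOP : ST_KOP) (hSPC : ST_SPC) (M : Type) [MetricSpace M] [CompactSpace M]
    [MeasurableSpace M] [BorelSpace M] (μ : Measure M) [IsProbabilityMeasure μ]
    (hμ : ∀ U : Set M, IsOpen U → U.Nonempty → 0 < μ U)
    (hinv : ∀ k : M ≃ᵢ M, MeasurePreserving k μ μ) (η : ℝ) (hη : 0 < η) :
    ∃ (d : ℕ) (e : Fin d → C(M, ℂ)), Fr μ e ∧ ∀ a b : M, (∀ i, e i a = e i b) →
      ‖fdeL μ (fdeP 1 a - fdeP 1 b)‖ ≤ η := by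
  have : Measure.IsOpenPosMeasure μ := ⟨fun U hU hn => (hμ U hU hn).ne'⟩
  obtain ⟨P, hPc, hPs, hP⟩ := hKOP M μ 1 one_pos
  have hPK : ∀ h : Lp ℂ 2 μ, P h = fdeL μ (fdeK μ 1 h) := by
    intro h
    apply Lp.ext
    filter_upwards [hP h, fdeL_ae μ (fdeK μ 1 h)] with m h1 h2
    rw [h1, h2, fdeK_int]
  have hinj : ∀ f g : C(M, ℂ), fdeL μ f = fdeL μ g → f = g := by
    intro f g hfg
    have h1 : (f : M → ℂ) =ᵐ[μ] g := by
      filter_upwards [fdeL_ae μ f, fdeL_ae μ g] with m h2 h3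
      rw [← h2, ← h3, hfg]
    exact ContinuousMap.ext fun m => congrFun
      ((Continuous.ae_eq_iff_eq μ f.continuous g.continuous).mp h1) m
  have hKc : IsCompact (Set.range fun q : M × M => fdeL μ (fdeP 1 q.1 - fdeP 1 q.2)) :=
    isCompact_range (by fun_prop)
  obtain ⟨V, hVf, hV1, hV2, hV3⟩ := hSPC (Lp ℂ 2 μ) P hPc hPs _ hKc _ hη
  have := hVf
  obtain ⟨d, b, hb, hbV, hbs⟩ := fde_basis V
  choose v' hv'V hv' using fun i => hV1 (b i) (hbV i)
  set e : Fin d → C(M, ℂ) := fun i => fdeK μ 1 (v' i) with he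
  have heb : ∀ i, fdeL μ (e i) = b i := fun i => by rw [he, ← hPK, hv']
  have hcf : ∀ f : C(M, ℂ), cf μ e f = fdeC b (fdeL μ f) := by
    intro f
    rw [fdeC_apply, cf]
    congr 1
    ext i
    rw [← heb, fdeL_inner]
  refine ⟨d, e, ⟨?_, ?_⟩, ?_⟩
  · intro i j
    rw [← fdeL_inner, heb, heb, orthonormal_iff_ite.mp hb]
  · intro k
    have hk := hinv k
    have hk' := hinv k.symm
    have hcomm : ∀ (k : M ≃ᵢ M) (hk : MeasurePreserving k μ μ)
        (hk' : MeasurePreserving k.symm μ μ) (h : Lp ℂ 2 μ),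
        fdeU μ k hk (P h) = P (fdeU μ k hk h) := by
      intro k hk hk' h
      rw [hPK, hPK, fdeU_L]
      congr 1
      ext m
      rw [fdeK_U μ 1 k hk hk']
      rfl
    obtain ⟨R, hR, hR'⟩ := fde_unitary hb hbV hbs (fdeU μ k hk) (fdeU μ k.symm hk')
      (fdeU_adj μ k hk hk') (fdeU_symm μ k hk hk') (fdeU_symm' μ k hk hk')
      (hV2 _ (hcomm k hk hk')) (hV2 _ (hcomm k.symm hk' hk))
    refine ⟨R, hR, fun f => ?_⟩
    rw [hcf, ← hR', fdeU_L, ← hcf]
    rfl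
  · intro x y hxy
    obtain ⟨g, hg, h₀, hh₀, hperp, hnorm⟩ := hV3 (fdeL μ (fdeP 1 x - fdeP 1 y)) ⟨(x, y), rfl⟩
    have hK0 : fdeK μ 1 h₀ = 0 := hinj _ _ (by rw [← hPK, hh₀, map_zero])
    have hin : ∀ h : Lp ℂ 2 μ, (inner ℂ (fdeL μ (fdeP 1 x - fdeP 1 y)) h : ℂ)
        = fdeK μ 1 h x - fdeK μ 1 h y := by
      intro h
      rw [map_sub, inner_sub_left, fdeK_apply, fdeK_apply]
    have hsep : ∀ v ∈ V, fdeK μ 1 v x = fdeK μ 1 v y := by
      intro v hv
      have h1 : P v ∈ V := hV2 P (fun _ => rfl) v hv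
      have h2 := hbs _ h1
      have h3 : fdeK μ 1 v = ∑ i, (inner ℂ (b i) (P v) : ℂ) • e i := by
        refine hinj _ _ ?_
        rw [← hPK, map_sum]
        rw [← h2]
        refine Finset.sum_congr rfl fun i _ => ?_
        rw [map_smul, heb, h2]
      rw [h3]
      simp only [ContinuousMap.coe_sum, Finset.sum_apply, ContinuousMap.coe_smul, Pi.smul_apply,
        hxy]
    have hfg : ∀ v ∈ V, (inner ℂ (fdeL μ (fdeP 1 x - fdeP 1 y)) v : ℂ) = 0 := by
      intro v hv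
      rw [hin, hsep v hv, sub_self]
    have hg0 : g = 0 := by
      have h1 := hperp g hg
      rw [inner_sub_right, ← inner_conj_symm, hfg g hg, map_zero, zero_sub, neg_eq_zero] at h1
      exact inner_self_eq_zero.mp h1
    rw [hg0, sub_zero] at hnorm
    set f := fdeL μ (fdeP 1 x - fdeP 1 y) with hf
    have h4 : (inner ℂ f h₀ : ℂ) = 0 := by
      rw [hin, hK0]
      simp
    have h5 : ‖f‖ * ‖f‖ ≤ ‖f‖ * η := by
      calc ‖f‖ * ‖f‖ = ‖(inner ℂ f f : ℂ)‖ := by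
            rw [inner_self_eq_norm_sq_to_K, ← sq]
            simp
        _ = ‖(inner ℂ f (f - h₀) : ℂ)‖ := by rw [inner_sub_right, h4, sub_zero]
        _ ≤ ‖f‖ * ‖f - h₀‖ := norm_inner_le_norm _ _
        _ ≤ ‖f‖ * η := by gcongr
    rcases (norm_nonneg f).eq_or_lt with h6 | h6
    · rw [← h6]
      exact hη.le
    · exact le_of_mul_le_mul_left h5 h6

/-- row XPW -/
theorem st_XPW (hKOP : ST_KOP) (hSPC : ST_SPC) : Pool.Agent.Helper40.ZU.ST_XPW := by
  intro M _ _ _ _ μ _ hμ hinv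
  have : Measure.IsOpenPosMeasure μ := ⟨fun U hU hn => (hμ U hU hn).ne'⟩
  choose d e hFr hsep using fun n : ℕ => xpw_one hKOP hSPC M μ hμ hinv (1 / ((n : ℝ) + 1))
    (by positivity)
  refine ⟨d, e, hFr, fun a b hab => ?_⟩
  have h1 : ‖fdeL μ (fdeP 1 a - fdeP 1 b)‖ ≤ 0 := by
    refine ge_of_tendsto' tendsto_one_div_add_atTop_nhds_zero_nat fun n => hsep n a b (hab n)
  have h2 : fdeL μ (fdeP 1 a - fdeP 1 b) = 0 := norm_le_zero_iff.mp h1
  have h3 : (fdeP 1 a - fdeP 1 b : C(M, ℂ)) = 0 := by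
    have h4 : ((fdeP 1 a - fdeP 1 b : C(M, ℂ)) : M → ℂ) =ᵐ[μ] (0 : C(M, ℂ)) := by
      have h5 : fdeL μ (fdeP 1 a - fdeP 1 b) = fdeL μ 0 := by rw [h2, map_zero]
      filter_upwards [fdeL_ae μ (fdeP 1 a - fdeP 1 b), fdeL_ae μ 0] with m h6 h7
      rw [← h6, ← h7, h5]
    exact ContinuousMap.ext fun m => congrFun
      ((Continuous.ae_eq_iff_eq μ (map_continuous _) (map_continuous _)).mp h4) m
  have h4 : fdeP 1 a a = fdeP 1 b a := by
    have h5 := congrArg (fun f : C(M, ℂ) => f a) h3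
    simpa [sub_eq_zero] using h5
  rw [fdeP_apply, fdeP_apply, dist_self, Complex.ofReal_inj, sub_zero, max_eq_right zero_le_one]
    at h4
  have h5 : dist b a = 0 := by
    by_contra h6
    have h7 : 0 < dist b a := lt_of_le_of_ne dist_nonneg (Ne.symm h6)
    have h8 : max 0 (1 - dist b a) < 1 := max_lt one_pos (by linarith)
    linarith
  exact (dist_eq_zero.mp h5).symm

end Pool.Agent.Helper96.ZU
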