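import Pool.Agent.Helper40.ZU.Stmts3

/-!
Sheet ZU, row SUX (MP_7a8f48_an): uniform convergence.
-/

open MeasureTheory Filter Topology Finset

namespace Pool.Agent.Helper96.ZU

open Pool.Agent.Helper40.ZU
open Pool.Agent.Helper16.MD (MS)

/-- row SUX -/
theorem st_SUX (hSSQ : ST_SSQ) : ST_SUX := by
  intro X _ _ _ _ T F hT hGa
  by_contra hcon
  rw [Metric.tendstoUniformly_iff] at hcon
  push Not at hcon
  obtain ⟨ε, hε, hfr⟩ := hcon
  have hex : ∀ M : ℕ, ∃ N : ℕ, M ≤ N ∧ ∃ x : X, ε ≤ ‖MS (fun n => F (T^[n] x)) N / (N : ℂ)‖ := by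
    intro M
    obtain ⟨N, hN1, hN2⟩ := (frequently_atTop.mp hfr) M
    obtain ⟨x, hx⟩ := hN2
    refine ⟨N, hN1, x, ?_⟩
    rwa [dist_zero_left] at hx
  choose nn hnn xx hxx using hex
  -- the sequence of the lengths
  set g : ℕ → ℕ := fun k => Nat.rec (nn 1) (fun k y => nn ((k + 2) * y + 1)) k with hg
  set c : ℕ → ℕ := fun k => Nat.casesOn k 1 (fun k => (k + 2) * g k + 1) with hc
  have hgc : ∀ k, g k = nn (c k) := by
    intro k
    cases k with
    | zero => rfl
    | succ k => rfl
  have hcg : ∀ k, c k ≤ g k := fun k => by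
    rw [hgc]
    exact hnn _
  have hgs : ∀ k, (k + 2) * g k + 1 ≤ g (k + 1) := fun k => hcg (k + 1)
  have hg2 : ∀ k, 2 ^ k ≤ g k := by
    intro k
    induction k with
    | zero => exact hcg 0
    | succ k ih =>
      have h1 := hgs k
      have h2 : 2 * g k ≤ (k + 2) * g k := Nat.mul_le_mul_right _ (by omega)
      rw [pow_succ]
      omega
  have hglt : ∀ k, g k < g (k + 1) := by
    intro k
    have h1 := hgs k
    have h2 : 1 * g k ≤ (k + 2) * g k := Nat.mul_le_mul_right _ (by omega)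
    omega
  have hgm : StrictMono g := strictMono_nat_of_lt_succ hglt
  have hexk : ∀ n, ∃ k, n ≤ g k := fun n => ⟨n, hgm.id_le n⟩
  classical
  set idx : ℕ → ℕ := fun n => Nat.find (hexk n) with hidx
  set w : ℕ → X := fun n => T^[n] (xx (c (idx n))) with hw
  have hidx1 : ∀ n, n ∉ Set.range g → idx (n + 1) = idx n := by
    intro n hn
    show Nat.find (hexk (n + 1)) = Nat.find (hexk n)
    apply Nat.find_congr'
    intro k
    have : g k ≠ n := fun h => hn ⟨k, h⟩
    omega
  have hw1 : ∀ n, n ∉ Set.range g → w (n + 1) = T (w n) := by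
    intro n hn
    show T^[n + 1] (xx (c (idx (n + 1)))) = T (T^[n] (xx (c (idx n))))
    rw [hidx1 n hn, Function.iterate_succ_apply']
  have hcard : ∀ N : ℕ, (Nat.card {n : ℕ // n < N ∧ w (n + 1) ≠ T (w n)} : ℝ) ≤
      (Nat.log 2 N : ℝ) + 1 := by
    intro N
    have h1 : {n : ℕ | n < N ∧ w (n + 1) ≠ T (w n)} ⊆
        ((Finset.image g (range (Nat.log 2 N + 1)) : Finset ℕ) : Set ℕ) := by
      rintro n ⟨hn1, hn2⟩
      have h2 : n ∈ Set.range g := by
        by_contra h3
        exact hn2 (hw1 n h3)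
      obtain ⟨k, rfl⟩ := h2
      rw [Finset.coe_image]
      refine ⟨k, ?_, rfl⟩
      rw [Finset.coe_range, Set.mem_Iio, Nat.lt_succ_iff]
      have h4 : 2 ^ k ≤ N := (hg2 k).trans hn1.le
      exact Nat.le_log_of_pow_le (by norm_num) h4
    have h2 : Nat.card {n : ℕ // n < N ∧ w (n + 1) ≠ T (w n)} ≤
        (Finset.image g (range (Nat.log 2 N + 1))).card := by
      have h3 := Nat.card_mono (Finset.finite_toSet _) h1
      rwa [Nat.card_coe_set_eq ((Finset.image g (range (Nat.log 2 N + 1)) : Finset ℕ) : Set ℕ),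
        Set.ncard_coe_finset] at h3
    have h3 : (Finset.image g (range (Nat.log 2 N + 1))).card ≤ Nat.log 2 N + 1 := by
      refine Finset.card_image_le.trans ?_
      rw [card_range]
    exact_mod_cast h2.trans h3
  have hden : Tendsto (fun N : ℕ =>
      (Nat.card {n : ℕ // n < N ∧ w (n + 1) ≠ T (w n)} : ℝ) / (N : ℝ)) atTop (𝓝 0) := by
    have h1 : Tendsto (fun N : ℕ => (Real.logb 2 N + 1) / (N : ℝ)) atTop (𝓝 0) := by
      have h2 : Tendsto (fun x : ℝ => Real.log x / x) atTop (𝓝 0) := by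
        have := Real.isLittleO_log_id_atTop.tendsto_div_nhds_zero
        exact this
      have h3 : Tendsto (fun N : ℕ => (Real.log 2)⁻¹ * (Real.log (N : ℝ) / (N : ℝ)) +
          1 / (N : ℝ)) atTop (𝓝 ((Real.log 2)⁻¹ * 0 + 0)) :=
        ((h2.comp tendsto_natCast_atTop_atTop).const_mul _).add
          tendsto_one_div_atTop_nhds_zero_nat
      rw [mul_zero, add_zero] at h3
      refine h3.congr fun N => ?_
      rw [Real.logb, div_eq_mul_inv (Real.log (N : ℝ)) (Real.log 2), add_div]
      ring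
    refine squeeze_zero (fun N => by positivity) (fun N => ?_) h1
    gcongr
    refine (hcard N).trans ?_
    have := Real.natLog_le_logb N 2
    push_cast at this
    linarith
  have hlim := hSSQ X T w F hT hGa hden
  have hgt : Tendsto g atTop atTop := hgm.tendsto_atTop
  have hlim1 := (hlim.comp ((tendsto_add_atTop_iff_nat 1).mpr hgt)).norm
  rw [norm_zero] at hlim1
  have hlim2 : Tendsto (fun k : ℕ => ‖MS (fun n => F (w n)) (g (k + 1)) / (g (k + 1) : ℂ)‖ +
      2 * ‖F‖ * (1 / ((k : ℝ) + 1))) atTop (𝓝 0) := by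
    have h1 := hlim1.add (tendsto_one_div_add_atTop_nhds_zero_nat.const_mul (2 * ‖F‖))
    rw [mul_zero, add_zero] at h1
    exact h1
  have hge : ∀ k : ℕ, ε ≤ ‖MS (fun n => F (w n)) (g (k + 1)) / (g (k + 1) : ℂ)‖ +
      2 * ‖F‖ * (1 / ((k : ℝ) + 1)) := by
    intro k
    have h1 : ε ≤ ‖MS (fun n => F (T^[n] (xx (c (k + 1))))) (g (k + 1)) / (g (k + 1) : ℂ)‖ := by
      have h0 := hxx (c (k + 1))
      have h00 : nn (c (k + 1)) = g (k + 1) := (hgc (k + 1)).symm
      rwa [h00] at h0
    refine h1.trans ?_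
    have hg0 : (0 : ℝ) < g (k + 1) := by
      have := hgs k
      exact_mod_cast (by omega : 0 < g (k + 1))
    have hdiff : ‖MS (fun n => F (T^[n] (xx (c (k + 1))))) (g (k + 1)) -
        MS (fun n => F (w n)) (g (k + 1))‖ ≤ g k * (2 * ‖F‖) := by
      rw [MS, MS, ← Finset.sum_sub_distrib]
      have hsub : Icc 1 (g k) ⊆ Icc 1 (g (k + 1)) := Icc_subset_Icc_right (hglt k).le
      rw [← Finset.sum_subset hsub]
      · refine (norm_sum_le _ _).trans ?_
        have hb : ∀ n ∈ Icc 1 (g k), ‖((ArithmeticFunction.moebius n : ℤ) : ℂ) *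
            F (T^[n] (xx (c (k + 1)))) - ((ArithmeticFunction.moebius n : ℤ) : ℂ) * F (w n)‖ ≤
            2 * ‖F‖ := by
          intro n _
          rw [← mul_sub, norm_mul]
          have hm : ‖((ArithmeticFunction.moebius n : ℤ) : ℂ)‖ ≤ 1 := by
            rw [Complex.norm_intCast]
            exact_mod_cast ArithmeticFunction.abs_moebius_le_one
          calc _ ≤ 1 * (‖F (T^[n] (xx (c (k + 1))))‖ + ‖F (w n)‖) := by
                gcongr
                exact norm_sub_le _ _
            _ ≤ 1 * (‖F‖ + ‖F‖) := by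
                gcongr
                · exact F.norm_coe_le_norm _
                · exact F.norm_coe_le_norm _
            _ = 2 * ‖F‖ := by ring
        refine (Finset.sum_le_sum hb).trans ?_
        rw [Finset.sum_const, Nat.card_Icc, nsmul_eq_mul, Nat.add_sub_cancel]
      · intro n hn1 hn2
        rw [Finset.mem_Icc] at hn1 hn2
        have h3 : g k < n := by omega
        have h4 : idx n = k + 1 := by
          show Nat.find (hexk n) = k + 1
          rw [Nat.find_eq_iff]
          refine ⟨hn1.2, fun j hj => ?_⟩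
          have : g j ≤ g k := hgm.monotone (by omega)
          omega
        show _ * F (T^[n] (xx (c (k + 1)))) - _ * F (T^[n] (xx (c (idx n)))) = 0
        rw [h4, sub_self]
    have hsplit : MS (fun n => F (T^[n] (xx (c (k + 1))))) (g (k + 1)) / (g (k + 1) : ℂ) =
        MS (fun n => F (w n)) (g (k + 1)) / (g (k + 1) : ℂ) +
        (MS (fun n => F (T^[n] (xx (c (k + 1))))) (g (k + 1)) -
        MS (fun n => F (w n)) (g (k + 1))) / (g (k + 1) : ℂ) := by
      ring
    rw [hsplit]
    refine (norm_add_le _ _).trans (add_le_add le_rfl ?_)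
    rw [norm_div, Complex.norm_natCast, div_le_iff₀ hg0]
    refine hdiff.trans ?_
    have h5 : ((k : ℝ) + 1) * g k ≤ g (k + 1) := by
      have h6 := hgs k
      have h7 : (k + 1) * g k ≤ g (k + 1) := by nlinarith
      exact_mod_cast h7
    have h8 : (g k : ℝ) ≤ 1 / ((k : ℝ) + 1) * g (k + 1) := by
      rw [one_div, ← div_eq_inv_mul, le_div_iff₀ (by positivity)]
      linarith
    calc (g k : ℝ) * (2 * ‖F‖) ≤ (1 / ((k : ℝ) + 1) * g (k + 1)) * (2 * ‖F‖) := by gcongr
      _ = 2 * ‖F‖ * (1 / ((k : ℝ) + 1)) * g (k + 1) := by ring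
  exact absurd (ge_of_tendsto' hlim2 hge) (not_le.mpr hε)

end Pool.Agent.Helper96.ZU
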